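import Pool.Agent.Helper22.LIL.Defs
import Pool.Agent.Helper53.OM.GrMul

/-! LIL-GR: upper bounds for the number of representations by sums of two squares (helper97). -/

open MeasureTheory Filter
open scoped Real Topology

namespace Pool.Agent.Helper22.LIL

open Pool.Agent.Helper22.GC Pool.Agent.Helper53.OM

theorem GR_mem {n : ℕ} {z : GaussianInt} (hz : z ∈ gS n) : z * star z = (n : GaussianInt) := by
  have hz' : z.norm = n := hz
  rw [← Zsqrtd.norm_eq_mul_conj, hz']
  rfl

/-- if every element of `gS (m * q)` is `u * v` with `v ∈ V` and `u ∈ gS m`, then the number of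
representations is at most `V.card * gr m`. -/
theorem GR_le {m n : ℕ} (V : Finset GaussianInt)
    (h : ∀ z ∈ gS n, ∃ u ∈ gS m, ∃ v ∈ V, z = u * v) : gr n ≤ V.card * gr m := by
  classical
  have hm := gS_finite m
  have hsub : gS n ⊆ ((hm.toFinset ×ˢ V).image fun q : GaussianInt × GaussianInt => q.1 * q.2 :
      Finset GaussianInt) := by
    intro z hz
    obtain ⟨u, hu, v, hv, rfl⟩ := h z hz
    rw [Finset.mem_coe, Finset.mem_image]
    exact ⟨(u, v), Finset.mem_product.2 ⟨hm.mem_toFinset.2 hu, hv⟩, rfl⟩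
  calc gr n ≤ (((hm.toFinset ×ˢ V).image fun q : GaussianInt × GaussianInt => q.1 * q.2 :
      Finset GaussianInt) : Set GaussianInt).ncard := Set.ncard_le_ncard hsub (Finset.finite_toSet _)
    _ = ((hm.toFinset ×ˢ V).image fun q : GaussianInt × GaussianInt => q.1 * q.2).card :=
        Set.ncard_coe_finset _
    _ ≤ (hm.toFinset ×ˢ V).card := Finset.card_image_le
    _ = V.card * gr m := by
        rw [Finset.card_product, mul_comm]
        congr 1
        unfold gr
        rw [Set.ncard_eq_toFinset_card _ hm]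

theorem GR_norm_div {n q : ℕ} (hq : 0 < q) {u v : GaussianInt} (h : v * u ∈ gS (n * q))
    (hv : v.norm = q) : u ∈ gS n := by
  have h' : (v * u).norm = ((n * q : ℕ) : ℤ) := h
  rw [Zsqrtd.norm_mul, hv, mul_comm] at h'
  push_cast at h'
  have hq' : (q : ℤ) ≠ 0 := by exact_mod_cast hq.ne'
  exact mul_right_cancel₀ hq' h'

/-- GR1 -/
theorem gr_mul_pow_le {p : ℕ} (hp : p.Prime) (h4 : p % 4 = 1) {m : ℕ} (hm : 0 < m) (k : ℕ) :
    gr (m * p ^ k) ≤ (k + 1) * gr m := by
  have : Fact p.Prime := ⟨hp⟩
  obtain ⟨a, b, hab⟩ := Nat.Prime.sq_add_sq (p := p) (by omega)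
  set w : GaussianInt := ⟨a, b⟩ with hwdef
  have hwn : w.norm = p := by
    rw [Zsqrtd.norm_def]
    simp only [hwdef]
    rw [← hab]; push_cast; ring
  have hwn' : (star w).norm = p := by rw [Zsqrtd.norm_conj]; exact hwn
  have hprime : Prime w := (irr_of_norm hp hwn).prime
  have hww : w * star w = (p : GaussianInt) := GR_mem hwn
  -- structure of the representations
  have key : ∀ (k : ℕ) (z : GaussianInt), z ∈ gS (m * p ^ k) →
      ∃ u ∈ gS m, ∃ i ∈ Finset.range (k + 1), z = u * (w ^ i * star w ^ (k - i)) := by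
    intro k
    induction k with
    | zero =>
      intro z hz
      refine ⟨z, by simpa using hz, 0, by simp, by simp⟩
    | succ k ih =>
      intro z hz
      have hz' : z ∈ gS (m * p ^ k * p) := by rw [mul_assoc, ← pow_succ]; exact hz
      have h1 : w ∣ z * star z := by
        rw [GR_mem hz']
        push_cast
        rw [← hww]
        exact Dvd.intro_left (m * (w * star w) ^ k * star w) (by ring)
      rcases hprime.dvd_or_dvd h1 with h2 | h2
      · obtain ⟨z1, rfl⟩ := h2
        have h3 : z1 ∈ gS (m * p ^ k) := by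
          exact GR_norm_div hp.pos (v := w) hz' hwn
        obtain ⟨u, hu, i, hi, rfl⟩ := ih z1 h3
        rw [Finset.mem_range] at hi
        refine ⟨u, hu, i + 1, by rw [Finset.mem_range]; omega, ?_⟩
        rw [show k + 1 - (i + 1) = k - i by omega]
        ring
      · obtain ⟨y, hy⟩ := h2
        have hz2 : z = star w * star y := by
          rw [← star_star z, hy, star_mul]
          ring
        have h3 : star y ∈ gS (m * p ^ k) := by
          exact GR_norm_div hp.pos (v := star w) (by rw [← hz2]; exact hz') hwn'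
        obtain ⟨u, hu, i, hi, hi'⟩ := ih (star y) h3
        rw [Finset.mem_range] at hi
        refine ⟨u, hu, i, by rw [Finset.mem_range]; omega, ?_⟩
        rw [hz2, hi', show k + 1 - i = k - i + 1 by omega]
        ring
  classical
  have h := GR_le (m := m) (n := m * p ^ k)
    ((Finset.range (k + 1)).image fun i => w ^ i * star w ^ (k - i)) fun z hz => by
      obtain ⟨u, hu, i, hi, rfl⟩ := key k z hz
      exact ⟨u, hu, _, Finset.mem_image_of_mem _ hi, rfl⟩
  refine h.trans (Nat.mul_le_mul_right _ ?_)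
  calc _ ≤ (Finset.range (k + 1)).card := Finset.card_image_le
    _ = k + 1 := Finset.card_range _

/-- GR3 -/
theorem gr_two_mul_le {m : ℕ} (hm : 0 < m) : gr (m * 2) ≤ gr m := by
  set w : GaussianInt := ⟨1, 1⟩ with hwdef
  have hwn : w.norm = (2 : ℕ) := by
    rw [Zsqrtd.norm_def]; simp [hwdef]
  have hprime : Prime w := (irr_of_norm Nat.prime_two hwn).prime
  have hww : w * star w = ((2 : ℕ) : GaussianInt) := GR_mem hwn
  have hsw : w ∣ star w := by
    refine ⟨⟨0, -1⟩, ?_⟩
    apply Zsqrtd.ext <;> simp [hwdef]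
  have h := GR_le (m := m) (n := m * 2) {w} fun z hz => by
    have h1 : w ∣ z * star z := by
      rw [GR_mem hz]
      push_cast
      have : (2 : GaussianInt) = w * star w := by rw [hww]; norm_num
      rw [this]
      exact Dvd.intro_left (m * star w) (by ring)
    have h2 : w ∣ z := by
      rcases hprime.dvd_or_dvd h1 with h2 | h2
      · exact h2
      · obtain ⟨y, hy⟩ := h2
        have hz2 : z = star w * star y := by
          rw [← star_star z, hy, star_mul]
          ring
        rw [hz2]
        exact Dvd.dvd.mul_right hsw _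
    obtain ⟨u, rfl⟩ := h2
    refine ⟨u, ?_, w, Finset.mem_singleton_self _, by ring⟩
    exact GR_norm_div (q := 2) (by norm_num) (v := w) hz hwn
  simpa using h

theorem GR_three_dvd {p : ℕ} (hp : p.Prime) (h4 : p % 4 = 3) {n : ℕ} {z : GaussianInt}
    (hz : z ∈ gS n) (hn : p ∣ n) : (p : GaussianInt) ∣ z := by
  have : Fact p.Prime := ⟨hp⟩
  have hprime : Prime (p : GaussianInt) :=
    (GaussianInt.prime_iff_mod_four_eq_three_of_nat_prime p).2 h4
  have h1 : (p : GaussianInt) ∣ z * star z := by
    rw [GR_mem hz]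
    obtain ⟨c, rfl⟩ := hn
    exact ⟨c, by push_cast; ring⟩
  rcases hprime.dvd_or_dvd h1 with h2 | h2
  · exact h2
  · obtain ⟨y, hy⟩ := h2
    refine ⟨star y, ?_⟩
    rw [← star_star z, hy, star_mul, star_natCast]
    ring

/-- GR4 -/
theorem gr_three {p : ℕ} (hp : p.Prime) (h4 : p % 4 = 3) {m : ℕ} (hm : ¬ p ∣ m) :
    gr (m * p) = 0 := by
  have : gS (m * p) = ∅ := by
    ext z
    simp only [Set.mem_empty_iff_false, iff_false]
    intro hz
    obtain ⟨u, rfl⟩ := GR_three_dvd hp h4 hz (Dvd.intro_left m rfl)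
    have h1 : ((p : GaussianInt) * u).norm = ((m * p : ℕ) : ℤ) := hz
    rw [Zsqrtd.norm_mul, Zsqrtd.norm_natCast] at h1
    push_cast at h1
    have hp0 : (p : ℤ) ≠ 0 := by exact_mod_cast hp.ne_zero
    have h2 : (p : ℤ) * u.norm = m := by
      apply mul_right_cancel₀ hp0
      linarith
    exact hm (by exact_mod_cast (Dvd.intro _ h2 : (p : ℤ) ∣ (m : ℤ)))
  unfold gr
  rw [this, Set.ncard_empty]

/-- GR2 -/
theorem gr_mul_sq_le {p : ℕ} (hp : p.Prime) {m : ℕ} (hm : 0 < m) (k : ℕ) :
    gr (m * p ^ (2 * k)) ≤ (2 * k + 1) * gr m := by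
  have h24 : p = 2 ∨ p % 4 = 1 ∨ p % 4 = 3 := by
    rcases hp.eq_two_or_odd with h | h
    · exact Or.inl h
    · right; omega
  rcases h24 with rfl | h1 | h3
  · have : ∀ j : ℕ, gr (m * 2 ^ j) ≤ gr m := by
      intro j
      induction j with
      | zero => simp
      | succ j ih =>
        rw [pow_succ, ← mul_assoc]
        exact (gr_two_mul_le (by positivity)).trans ih
    calc gr (m * 2 ^ (2 * k)) ≤ 1 * gr m := by rw [one_mul]; exact this _
      _ ≤ _ := Nat.mul_le_mul_right _ (by omega)
  · exact gr_mul_pow_le hp h1 hm (2 * k)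
  · have step : ∀ n : ℕ, gr (n * p ^ 2) ≤ gr n := by
      intro n
      have h := GR_le (m := n) (n := n * p ^ 2) {(p : GaussianInt)} fun z hz => by
        obtain ⟨u, rfl⟩ := GR_three_dvd hp h3 hz (Dvd.intro_left (n * p) (by ring))
        refine ⟨u, ?_, _, Finset.mem_singleton_self _, by ring⟩
        exact GR_norm_div (q := p ^ 2) (by have := hp.pos; positivity) (v := (p : GaussianInt)) hz
          (by rw [Zsqrtd.norm_natCast]; push_cast; ring)
      simpa using h
    have : ∀ j : ℕ, gr (m * p ^ (2 * j)) ≤ gr m := by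
      intro j
      induction j with
      | zero => simp
      | succ j ih =>
        rw [show m * p ^ (2 * (j + 1)) = m * p ^ (2 * j) * p ^ 2 by ring]
        exact (step _).trans ih
    calc gr (m * p ^ (2 * k)) ≤ 1 * gr m := by rw [one_mul]; exact this _
      _ ≤ _ := Nat.mul_le_mul_right _ (by omega)

end Pool.Agent.Helper22.LIL
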